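import Pool.Agent.V11219.SstDefs
import Pool.Agent.Hx88.NS.Defs

/-!
# Towers of products of powers of varieties with simultaneous semistable degenerations, relative to an
# arbitrary variety: definitions
-/

set_option autoImplicit false

open CategoryTheory AlgebraicGeometry

universe u

namespace Pool.Agent.Hx88.SS

open Pool.Agent.H914 Pool.Agent.H914.VarClass Pool.Agent.H914.VarClass.Obj
  Pool.Agent.H914.WeilCohomology Pool.Agent.H281R3.HT Pool.Agent.TH125.Gal Pool.Agent.N179.FO
  Pool.Agent.V11219.Sst Pool.Agent.Hx88.NS

variable {k : Type u} [Field k] {𝒱 : VarClass k} {ops : CycleOps 𝒱}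
  {W : WeilCohomology.{u, 0} ops} {Γ : Type} [Group Γ] {ι : Type}

/-- The elements `g` of `Γ` with `χ g = 1` which act trivially on the cohomology of `Z` and of `U`,
and with `(g - 1) ^ 2 = 0` on the transcendental cohomology of all `X i`. -/
def quadSet (χ : Γ →* W.Kˣ) (X : ι → GVar W Γ) (Z : GVar W Γ) (U : AnyVar W Γ) : Set Γ :=
  {g | InKer χ g ∧ TrivVar Z g ∧ TrivOn U g ∧ ∀ i, QuadVar (X i) g}

/-- `Γ` acts like a Galois group on the cohomology of the odd-dimensional varieties `X i`; numerical
and homological equivalence coincide for them; their transcendental cohomology is in the middle degree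
and irreducible under all subgroups of finite index, and no two of them are isomorphic up to scalars;
and for every `i` the set `quadSet` satisfies `SmallDefects` on it. -/
structure SemistableTimes (χ : Γ →* W.Kˣ) (X : ι → GVar W Γ) (Z : GVar W Γ) (U : AnyVar W Γ) :
    Prop where
  odd : ∀ i, Odd (X i).X.dim
  galois : ∀ i, IsGaloisVar χ (X i)
  homNum : ∀ i, HomNum (X i)
  middle : ∀ i, MiddleT (X i)
  irreducible : ∀ i, IrredT (X i)
  distinct : ∀ i j, i ≠ j → ¬ IsoUpToScalars (X i) (X j)
  small : ∀ i, SmallVar (X i) (quadSet χ X Z U)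

end Pool.Agent.Hx88.SS
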