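import Pool.Agent.Hx88.SS.Kill

/-!
# Simultaneous semistable degenerations: the structure of the semi-invariant elements
-/

set_option autoImplicit false
set_option linter.unusedSectionVars false
set_option linter.unusedVariables false

open CategoryTheory AlgebraicGeometry Finset Function
open scoped TensorProduct

universe u

namespace Pool.Agent.Hx88.SS

open Pool.Agent.H914 Pool.Agent.H914.VarClass Pool.Agent.H914.VarClass.Obj
  Pool.Agent.H914.WeilCohomology Pool.Agent.H281R3.HT Pool.Agent.W552 Pool.Agent.TH125.Gal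
  Pool.Agent.TH118.SG Pool.Agent.V11219.IsoF Pool.Agent.V11219.Loc Pool.Agent.V11219.Quad
  Pool.Agent.V11219.Sst Pool.Agent.N179.FO Pool.Agent.N179.TL Pool.Agent.N179.FG
  Pool.Agent.Hx88.NS

variable {k : Type u} [Field k] {𝒱 : VarClass k} {ops : CycleOps 𝒱}
  {W : WeilCohomology.{u, 0} ops} {Γ : Type} [Group Γ] {χ : Γ →* W.Kˣ}

section

variable {P : Polarized 𝒱} {n : ℕ} {s : SB W P.X}
  {ρ : Γ →* (W.H P.X ≃ₐ[W.K] W.H P.X)} {N : Type} [AddCommGroup N] [Module W.K N]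
  {σ : Γ →* (N →ₗ[W.K] N)}
  {ν : Γ →* (W.H (nest ops n fun _ => P).X ≃ₐ[W.K] W.H (nest ops n fun _ => P).X)}
  {b : Module.Basis (Fin (n + 1) → Fin s.NC ⊕ Fin s.NT) W.K (W.H (nest ops n fun _ => P).X)}
  (hb : ∀ r, b r = mono (prj ops n fun _ => P) fun p => s.e (r p))

include hb in
/-- the coordinates at the free positions are invariant -/
theorem gen_freeR (hDX : HomEqNum W P.X) (hmid : transcendental W P.X ≤ W.gr P.X P.X.dim)
    (hG : IsGalois W χ P.X ρ)
    (hP : ∀ g p a, ν g (W.map (prj ops n (fun _ => P) p) a) =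
      W.map (prj ops n (fun _ => P) p) (ρ g a)) (hodd : Odd P.X.dim)
    (hfull : FullRN P χ hG σ)
    {c : W.H (nest ops n fun _ => P).X ⊗[W.K] N} {j : ℕ} {Δ : Subgroup Γ} (hΔ : Δ.FiniteIndex)
    (hc : ∀ g ∈ Δ, TensorProduct.map (ν g).toLinearMap (σ g) c = (χ g : W.K) ^ j • c)
    (c₀ : Fin (n + 1) → Option (Fin s.NC)) :
    (fun r : Free c₀ → Fin s.NT => hmlN s.e b c fun p => s.es (comb c₀ r p)) ∈
      Pool.Agent.TH125.Nod.Gen (fun _ : Fin s.NT => ())
        (Matrix.of fun i j => bil W P.X (s.uT i) (s.uT j)) (fun _ : Free c₀ => ()) := by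
  have h1 := gen_mem' (S := Free c₀) (J := Fin s.NT) (s := (-1) ^ P.X.dim)
    (B := rform W P.X (transcendental W P.X)) hodd.neg_one_pow
    (fun a b => by
      rw [rform_apply, rform_apply, trans_symm hmid a.2 b.2]
      push_cast
      rfl)
    (trans_nondeg hDX)
    (fun u v => hfull (Free c₀) (lamb χ s c₀ j) (by
      intro g hχ
      rw [lamb_apply, hχ]
      simp) u v)
    (hSN_eqv hb hG hP hΔ hc c₀) s.uT
  have h2 : (fun r : Free c₀ → Fin s.NT => hSN s b c c₀ fun j => s.uT (r j)) =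
      fun r : Free c₀ → Fin s.NT => hmlN s.e b c fun p => s.es (comb c₀ r p) := by
    funext r
    exact hSN_comb c c₀ r
  rw [← h2]
  exact h1

include hb in
/-- **The structure of the semi-invariant elements.** -/
theorem mem_TgtR (hDX : HomEqNum W P.X) (hmid : transcendental W P.X ≤ W.gr P.X P.X.dim)
    (hG : IsGalois W χ P.X ρ)
    (hP : ∀ g p a, ν g (W.map (prj ops n (fun _ => P) p) a) =
      W.map (prj ops n (fun _ => P) p) (ρ g a)) (hodd : Odd P.X.dim)
    (hfull : FullRN P χ hG σ)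
    {c : W.H (nest ops n fun _ => P).X ⊗[W.K] N} {j : ℕ} {Δ : Subgroup Γ} (hΔ : Δ.FiniteIndex)
    (hc : ∀ g ∈ Δ, TensorProduct.map (ν g).toLinearMap (σ g) c = (χ g : W.K) ^ j • c) :
    c ∈ TgtN (ops := ops) s n N := by
  rw [expandF b c, sum_patterns]
  refine Submodule.sum_mem _ fun c₀ _ => ?_
  have h1 := gen_freeR hb hDX hmid hG hP hodd hfull hΔ hc c₀
  have h2 : ∀ F ∈ Pool.Agent.TH125.Nod.Gen (fun _ : Fin s.NT => ())
      (Matrix.of fun i j => bil W P.X (s.uT i) (s.uT j)) (fun _ : Free c₀ => ()),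
      ∑ r : Free c₀ → Fin s.NT, b (comb c₀ r) ⊗ₜ[W.K] (F r : N) ∈
        TgtN (ops := ops) s n N := by
    intro F hF
    induction hF using Submodule.span_induction with
    | mem F hF =>
      obtain ⟨m, e, w, rfl⟩ := hF
      obtain ⟨ε, S, i, x, hx, h3⟩ := mq_sum (s := s) (π := prj ops n fun _ => P) hmid e
      have h4 : ∑ r : Free c₀ → Fin s.NT, b (comb c₀ r) ⊗ₜ[W.K]
          (Pool.Agent.TH125.Nod.gen (fun _ : Fin s.NT => ())
            (Matrix.of fun i j => bil W P.X (s.uT i) (s.uT j)) (fun _ : Free c₀ => ()) e w r) =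
          (ε : W.K) • (x ⊗ₜ[W.K] w) := by
        rw [TensorProduct.smul_tmul', ← h3, TensorProduct.sum_tmul]
        refine Finset.sum_congr rfl fun r _ => ?_
        rw [Pool.Agent.TH125.Nod.gen, if_pos (fun _ => rfl), TensorProduct.tmul_smul,
          TensorProduct.smul_tmul', hb]
        rfl
      rw [h4]
      exact Submodule.smul_mem _ _ (Submodule.subset_span ⟨S, i, x, w, hx, rfl⟩)
    | zero =>
      simp only [Pi.zero_apply, TensorProduct.tmul_zero, Finset.sum_const_zero]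
      exact Submodule.zero_mem _
    | add F F' _ _ hF hF' =>
      simp only [Pi.add_apply, TensorProduct.tmul_add, Finset.sum_add_distrib]
      exact Submodule.add_mem _ hF hF'
    | smul x F _ hF =>
      simp only [Pi.smul_apply, TensorProduct.tmul_smul]
      rw [← Finset.smul_sum]
      exact Submodule.smul_mem _ _ hF
  have h3 := h2 _ h1
  simp only [coordN_eq hb]
  exact h3

end

/-- **The splitting of the semi-invariant elements for powers.** -/
theorem splits {X V : GVar W Γ} {n : ℕ} (h : IsPower X n V) (hG : IsGalois W χ X.X X.act)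
    (hDX : HomEqNum W X.X) (hmid : transcendental W X.X ≤ W.gr X.X X.X.dim)
    (hodd : Odd X.X.dim) :
    ∃ A : Set (W.H V.X), A ⊆ algSpan W V.X ∧ SemiAlg χ V A ∧
      ∀ (N : Type) [AddCommGroup N] [Module W.K N] (σ : Γ →* (N →ₗ[W.K] N)),
        FullRN (⟨X.X, 0⟩ : Polarized 𝒱) χ hG σ → Splits χ V A σ := by
  obtain ⟨ν, rfl, hν⟩ := h.elim
  obtain ⟨s⟩ := exists_SB hDX
  obtain ⟨Δ, hΔ, hfix⟩ := exists_fix hG s
  obtain ⟨b, hb⟩ := exists_monoBasis (ops := ops) (⟨X.X, 0⟩ : Polarized 𝒱) s.e n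
  have halg : ∀ m ∈ {m | ∃ S i, Mq s (prj ops n fun _ => (⟨X.X, 0⟩ : Polarized 𝒱)) S i m},
      m ∈ algSpan W (nest ops n fun _ => (⟨X.X, 0⟩ : Polarized 𝒱)).X := by
    rintro m ⟨S, i, hm⟩
    exact hm.alg hDX hmid
  refine ⟨{m | ∃ S i, Mq s (prj ops n fun _ => (⟨X.X, 0⟩ : Polarized 𝒱)) S i m}, halg, ?_, ?_⟩
  · rintro m ⟨S, i, hm⟩
    refine ⟨i, TH125.Gal.algSpan_gr (hm.alg hDX hmid) (hm.gr hmid), Δ, hΔ, fun g hg => ?_⟩
    exact mq_actN (P := ⟨X.X, 0⟩) hmid hG hν (hfix g hg) hm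
  · intro N _ _ σ hσ d j Δ₁ hΔ₁ hd
    have h1 := mem_TgtR (P := ⟨X.X, 0⟩) hb hDX hmid hG hν hodd hσ hΔ₁ hd
    refine Submodule.span_mono ?_ h1
    rintro x ⟨S, i, m, w, hm, rfl⟩
    exact ⟨m, ⟨S, i, hm⟩, w, rfl⟩

end Pool.Agent.Hx88.SS
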