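import Pool.Agent.V11219.SstOver
import Pool.Agent.Hx88.SS.Defs
import Pool.Agent.Hx88.SS.Split
import Pool.Agent.Hx88.NS.Main

/-!
# The Tate conjecture for the products of powers of varieties with simultaneous semistable
# degenerations with arbitrary varieties, and for their open subvarieties
-/

set_option autoImplicit false
set_option linter.unusedSectionVars false
set_option linter.unusedVariables false

open CategoryTheory AlgebraicGeometry Finset Function
open scoped TensorProduct

universe u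

namespace Pool.Agent.Hx88.SS

open Pool.Agent.H914 Pool.Agent.H914.VarClass Pool.Agent.H914.VarClass.Obj
  Pool.Agent.H914.WeilCohomology Pool.Agent.H281R3.HT Pool.Agent.W552 Pool.Agent.TH125.Gal
  Pool.Agent.TH118.SG Pool.Agent.V11219.IsoF Pool.Agent.V11219.Loc Pool.Agent.V11219.Quad
  Pool.Agent.V11219 Pool.Agent.V11219.Sst Pool.Agent.N179.FO Pool.Agent.N179.TL
  Pool.Agent.N179.FG Pool.Agent.Hx88.NS

variable {k : Type u} [Field k] {𝒱 : VarClass k} {ops : CycleOps 𝒱}
  {W : WeilCohomology.{u, 0} ops} {Γ : Type} [Group Γ] {χ : Γ →* W.Kˣ}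
  {ι : Type} {X : ι → GVar W Γ} {Z : GVar W Γ} {U : AnyVar W Γ}

theorem SemistableTimes.gal (h : SemistableTimes χ X Z U) (i : ι) :
    IsGalois W χ (X i).X (X i).act := isGalois (h.galois i)

/-- The family of representations. -/
theorem SemistableTimes.family [Fintype ι] [DecidableEq ι] [IsAlgClosed W.K]
    (h : SemistableTimes χ X Z U)
    {lam : Γ →* W.Kˣ} (hlam : ∀ g, χ g = 1 → lam g = 1) :
    Gk.SemistableFamily (fun i => mult χ (X i).X.dim) (fun i => rhoT (h.gal i))
      (fun i => rform W (X i).X (transcendental W (X i).X)) (1 : Γ →* W.K)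
      (1 : Γ →* (PUnit.{1} →ₗ[W.K] PUnit.{1})) 0 (twistN lam (sig Z U)) := by
  have hDX := h.homNum
  have hN : quadSet χ X Z U ⊆ Gk.quadratic (fun i => mult χ (X i).X.dim)
      (fun i => rhoT (h.gal i)) (1 : Γ →* W.K) (1 : Γ →* (PUnit.{1} →ₗ[W.K] PUnit.{1}))
      (twistN lam (sig Z U)) := by
    rintro g ⟨h1, h2, h2', h3⟩
    have h1 : χ g = 1 := h1
    refine ⟨?_, fun i => ⟨?_, ?_⟩, rfl, ?_⟩
    · apply LinearMap.ext
      intro z
      rw [twistN_apply, hlam g h1, sig_one h2 (LinearMap.ext h2')]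
      simp
    · rw [mult_apply, h1, Units.val_one, one_pow]
    · exact (quadAct_iff (P := ⟨(X i).X, 0⟩) (h.gal i)).1 (h3 i)
    · exact LinearMap.ext fun _ => rfl
  refine ⟨fun i => ⟨?_, ?_, ?_⟩, ⟨fun _ => rfl, fun _ _ => rfl, fun _ _ _ => ?_⟩, fun i => ?_,
    fun i j hij hiso => ?_, fun i => small_conv (h.gal i) hN (h.small i), fun i => ?_⟩
  · exact form_alt (P := ⟨(X i).X, 0⟩) (h.middle i) (h.odd i)
  · exact trans_nondeg (hDX i)
  · intro g a b
    rw [mult_apply]
    exact bil_act (h.gal i) g a b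
  · simp
  · exact SI_rhoT (P := ⟨(X i).X, 0⟩) (h.gal i) (h.irreducible i)
  · obtain ⟨T, hT⟩ := hiso
    refine h.distinct i j hij ⟨T, fun g => ?_⟩
    obtain ⟨c, hc⟩ := hT g
    refine ⟨c, fun x y hy => ?_⟩
    have h1 : y = rhoT (h.gal i) g x := Subtype.ext hy
    rw [h1, hc]
    rfl
  · obtain ⟨g, hg, hne⟩ := exists_ne_one (small_conv (h.gal i) hN (h.small i))
    refine ⟨g, hg, ?_⟩
    have h1 : LinearMap.range ((1 : Γ →* (PUnit.{1} →ₗ[W.K] PUnit.{1})) g - 1) = ⊥ := by
      rw [eq_bot_iff]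
      intro x _
      exact (Submodule.mem_bot W.K).2 rfl
    rw [h1, finrank_bot]
    refine Nat.pos_of_ne_zero fun h0 => hne ?_
    have h2 := Submodule.finrank_eq_zero.1 h0
    exact sub_eq_zero.1 (LinearMap.range_eq_bot.1 h2)

/-- **The base.** -/
theorem SemistableTimes.base [Fintype ι] [DecidableEq ι] [IsAlgClosed W.K]
    (h : SemistableTimes χ X Z U) (i : ι) : KTN h.gal (sig Z U) i := by
  intro S _ _ lam hlam Δ hΔ f hf u v z
  set L : (W.H Z.X ⊗[W.K] U.M) →ₗ[W.K] MultilinearMap W.K (fun _ : Empty => PUnit.{1})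
      (W.H Z.X ⊗[W.K] U.M) :=
    { toFun := fun m => MultilinearMap.constOfIsEmpty W.K _ m
      map_add' := fun _ _ => rfl
      map_smul' := fun _ _ => rfl } with hL
  have h1 := Gk.killAll (h.family hlam) hΔ (f := L.compMultilinearMap f)
    (fun g hg x y => by
      change f (fun s i => rhoT (h.gal i) g (x s i)) = twistN lam (sig Z U) g (f x)
      rw [twistN_apply]
      exact hf g hg x)
  have h2 := congrArg (fun m => m (fun e : Empty => e.elim)) (h1 i u v z)
  simp only [_root_.sum_apply] at h2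
  exact h2

theorem SemistableTimes.one_ne (h : SemistableTimes χ X Z U) (i : ι) :
    (1 : W.H (X i).X) ≠ 0 := by
  obtain ⟨g, -, hne⟩ := exists_ne_one (small_conv (h.gal i) (Set.Subset.refl _) (h.small i))
  intro h3
  apply hne
  apply LinearMap.ext
  intro t
  apply Subtype.ext
  have h4 : ∀ t : W.H (X i).X, t = 0 := fun t => by rw [← one_mul t, h3, zero_mul]
  rw [h4 (rhoT (h.gal i) g t : transcendental W (X i).X), h4 ((1 : Module.End W.K _) t :
    transcendental W (X i).X)]

/-- The step for products with powers. -/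
theorem KTN.prod [Fintype ι] [DecidableEq ι] (hG : ∀ i, IsGalois W χ (X i).X (X i).act)
    {i j : ι} (hij : i ≠ j) {V Y Y' : GVar W Γ} {n : ℕ} (hV : IsPower (X j) n V)
    (hP : IsProdVar V Y Y') (hDX : HomEqNum W (X j).X) (h : KTN hG (sig Y U) i) :
    KTN hG (sig Y' U) i := by
  obtain ⟨ν, rfl, hν⟩ := hV.elim
  obtain ⟨υ, h1, h2⟩ := hP
  have h3 := KTN.step hG hij h hDX hν
  refine KTN.of_inj hG h3 (theta W _ Y.X U.M) theta_inj fun g x => ?_
  exact theta_act h1 h2 g x

/-- The Lie algebras kill all equivariant maps to the cohomology of the products. -/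
theorem SemistableTimes.tower [Fintype ι] [DecidableEq ι] [IsAlgClosed W.K]
    (h : SemistableTimes χ X Z U) {S : Set ι} {Y : GVar W Γ} (hY : PowTower X Z S Y) :
    ∀ i, i ∉ S → KTN h.gal (sig Y U) i := by
  induction hY with
  | base => exact fun i _ => h.base i
  | @step S Y V Y' i n hT hi hn hV hP ih =>
    intro j hj
    rw [Set.mem_insert_iff, not_or] at hj
    exact KTN.prod h.gal hj.1 hV hP (h.homNum i) (ih j hj.2)

/-- **The Tate conjecture for the products with an arbitrary variety.** -/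
theorem sst_times [Finite ι] [IsAlgClosed W.K] (h : SemistableTimes χ X Z U) {S : Set ι}
    {Y : GVar W Γ} (hY : PowTower X Z S Y) : TateTimes χ Y U ↔ TateTimes χ Z U := by
  classical
  have := Fintype.ofFinite ι
  induction hY with
  | base => exact Iff.rfl
  | @step S Y V Y' i n hT hi hn hV hP ih =>
    have hfull := fullRN_of h.gal (h.tower hT i hi) 0 (h.middle i) (h.odd i)
    obtain ⟨A, -, hA, hs⟩ := splits hV (h.gal i) (h.homNum i) (h.middle i) (h.odd i)
    obtain ⟨a, ha, ha0⟩ := hV.pt (h.homNum i) (h.one_ne i)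
    obtain ⟨υ, h1, h2⟩ := hP
    refine Iff.trans ?_ ih
    exact ⟨conv_times ha ha0 h2, step_times h1 h2 hA (hs _ (sig Y U) hfull)⟩

/-- **The Tate conjecture for the open subvarieties.** -/
theorem sst_opens [Finite ι] [IsAlgClosed W.K] (h : SemistableTimes χ X Z U)
    (hX : ∀ i, PowersHomNum χ (X i)) {S : Set ι} {Y : GVar W Γ} (hY : PowTower X Z S Y)
    (hd : CyclesDefined χ Y U) : TateOpens χ Y U ↔ TateOpens χ Z U := by
  classical
  have := Fintype.ofFinite ι
  induction hY with
  | base => exact Iff.rfl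
  | @step S Y V Y' i n hT hi hn hV hP ih =>
    have hfull := fullRN_of h.gal (h.tower hT i hi) 0 (h.middle i) (h.odd i)
    obtain ⟨A, hA', hA, hs⟩ := splits hV (h.gal i) (h.homNum i) (h.middle i) (h.odd i)
    obtain ⟨a, ha, ha0⟩ := hV.pt (h.homNum i) (h.one_ne i)
    obtain ⟨hGV, hDV⟩ := hX i n V hV
    obtain ⟨υ, h1, h2⟩ := hP
    refine Iff.trans ?_ (ih (defined_snd' ha0 h2 hd))
    exact ⟨conv_opens ha ha0 h2,
      step_opens hDV (isGalois hGV) h1 h2 hA' (hs _ (sig Y U) hfull) hd⟩

end Pool.Agent.Hx88.SS
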